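import Pool.Agent.Q126.RM.Asm
import Pool.Agent.Q126.RM.TaskMeas
import Pool.Agent.Q126.RM.TaskBox
import Pool.Agent.Q126.RM.TaskCherry
import Pool.Agent.Q126.RM.TaskJensen
import Pool.Agent.Q126.RM.TaskVol
import Pool.Agent.Q126.RM.TaskSym
import Pool.Agent.Q126.RM.TaskMarg
import Pool.Agent.Q126.RM.TaskGibbs
import Pool.Agent.Q126.RM.TaskEntJ
import Pool.Agent.Q126.RM.TaskLeft
import Pool.Agent.Q126.RM.TaskSuper
import Pool.Agent.Q126.RM.TaskRight2
import Pool.Agent.Q126.RM.TaskEnt62

/-!
# The lower tail of one distance in a uniform random metric space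

Let `d` be a uniform random point of the convex body `M_n` of all metrics on `n` points with distances at most 2.
Then `P(d_ij < 1) ≥ 1 / (360 √n)` for all `n ≥ 3` and all `i ≠ j` (MP_1c6531_pr, Q1: with the known upper bound
`C / √n` the probability is of the exact order `n^(-1/2)`).

Proof. Volume: `log Vol(M_n) ≥ n^(3/2) / 120`, by a sum over disjoint boxes in `M_n` (given by the set of the pairs at
distance less than `1 + a`, `a = 1/(8√n)`) and Jensen's inequality. Gibbs' inequality: the entropy `h(f)` of
the density `f` of one distance is at least `log Vol(M_n) / N`, `N` the number of pairs. By Prekopa-Leindler `f`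
is log-concave on `(0, 2]`, and every such density has `h(f) ≤ 6 ∫_0^1 f`.
-/

set_option autoImplicit false

open MeasureTheory

namespace Pool.Agent.Results.MP_1c6531_pr.LowerTailOneDistance

/-- The unordered pairs of different points of `{0, ..., n-1}`, written `(i, j)` with `i < j`. -/
abbrev Pairs (n : ℕ) : Type := {p : Fin n × Fin n // p.1 < p.2}

/-- The distance of the points `i` and `j` given by the vector `x` of distances. -/
def dst {n : ℕ} (x : Pairs n → ℝ) (i j : Fin n) : ℝ :=
  if h : i < j then x ⟨(i, j), h⟩ else if h : j < i then x ⟨(j, i), h⟩ else 0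

/-- The metrics on `n` points with all distances at most `2`: `0 < d_ij ≤ 2` and the triangle inequalities. -/
def MetricBody (n : ℕ) : Set (Pairs n → ℝ) :=
  {x | (∀ e, 0 < x e ∧ x e ≤ 2) ∧
    ∀ i j k : Fin n, i ≠ j → i ≠ k → j ≠ k → dst x i j ≤ dst x i k + dst x k j}

/-- **Main theorem.** The volume of `M_n` is positive and finite, and for all `n ≥ 3` and every pair `e` the part of
`M_n` with `d_e < 1` has at least the fraction `1 / (360 √n)` of the volume of `M_n`, that is
`P(d_e < 1) ≥ 1 / (360 √n)` for the uniform distribution on `M_n`. -/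
theorem result (n : ℕ) (hn : 3 ≤ n) (e : Pairs n) :
    0 < volume (MetricBody n) ∧ volume (MetricBody n) < ⊤ ∧
      1 / (360 * Real.sqrt n) * (volume (MetricBody n)).toReal ≤
        (volume {x | x ∈ MetricBody n ∧ x e < 1}).toReal := by
  have h := Q126.RM.Meas n
  exact ⟨h.2.2.1, h.2.2.2, Q126.RM.asm Q126.RM.Meas Q126.RM.Box Q126.RM.Cherry Q126.RM.taskJensen Q126.RM.Vol Q126.RM.Sym Q126.RM.Marg Q126.RM.Gibbs Q126.RM.taskEntJ Q126.RM.Left Q126.RM.Super3 Q126.RM.Right2 Q126.RM.Ent62 n hn e⟩

end Pool.Agent.Results.MP_1c6531_pr.LowerTailOneDistance
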